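import Pool.Agent.Lib.MP_ae5e3b_mp.SFin
import Pool.Agent.Lib.MP_ae5e3b_mp.SSam

open MeasureTheory Filter Topology Real
open scoped ENNReal
open Pool.Agent.Lib.MP_ae5e3b_mp

namespace Pool.Agent.Results.MP_ae5e3b_mp.SharpUpperBound

/-- The March-Young inequality with the exact semiclassical term and a dimensional constant on the
gradient term, for pure states, in every dimension and for every particle number `N = n + 1`. -/
theorem result : ∀ d : ℕ, 1 ≤ d → ∃ C : ℝ,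
    ∀ (n : ℕ) (f : (Fin d → ℝ) → ℝ), Admissible f →
      KN n f ≤
        ENNReal.ofReal (Kcl d) * (∫⁻ x, ENNReal.ofReal (f x ^ (1 + 2 / (d : ℝ)))) +
        ENNReal.ofReal (C * ((n : ℝ) + 1) ^ (-2 / (d : ℝ))) * weiz f := by
  intro d hd
  obtain ⟨C, hC, H⟩ := Sh.main_sharp hd
  refine ⟨C, fun n f ⟨f0, fw, f1⟩ => ?_⟩
  have hN : (0 : ℝ) < (n : ℝ) + 1 := by positivity
  have hK := Kcl_pos hd
  have fi : Integrable f := Integrable.of_integral_ne_zero (by rw [f1]; exact one_ne_zero)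
  have fm : AEMeasurable f := fi.aemeasurable
  let u : (Fin d → ℝ) → ℝ := fun x => √(fm.mk f x)
  have um : Measurable u := fm.measurable_mk.sqrt
  have hu : ∀ᵐ x, u x = √(f x) := by
    filter_upwards [fm.ae_eq_mk] with x hx
    simp only [u, hx]
  have hu2 : ∀ᵐ x, u x ^ 2 = f x := by
    filter_upwards [hu] with x hx
    rw [hx, sq_sqrt (f0 x)]
  have u2 : MemLp u 2 volume :=
    (memLp_two_iff_integrable_sq um.aestronglyMeasurable).2 (fi.congr (EventuallyEq.symm hu2))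
  have u1 : ∫ x, u x ^ 2 = 1 := by rw [integral_congr_ae hu2, f1]
  set I := ∫⁻ x, ENNReal.ofReal (f x ^ (1 + 2 / (d : ℝ))) with hI
  rcases eq_or_ne I ⊤ with hI' | hI'
  · rw [hI', ENNReal.mul_top (by rw [Ne, ENNReal.ofReal_eq_zero, not_le]; positivity), top_add]
    exact le_top
  have hpow : ∀ᵐ x, (u x ^ 2) ^ (1 + 2 / (d : ℝ)) = f x ^ (1 + 2 / (d : ℝ)) := by
    filter_upwards [hu2] with x hx
    rw [hx]
  have hIu : I = ∫⁻ x, ENNReal.ofReal ((u x ^ 2) ^ (1 + 2 / (d : ℝ))) := by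
    refine lintegral_congr_ae ?_
    filter_upwards [hpow] with x hx
    rw [hx]
  have hD : Integrable fun x => (u x ^ 2) ^ (1 + 2 / (d : ℝ)) := by
    refine (lintegral_ofReal_ne_top_iff_integrable ?_
      (Eventually.of_forall fun x => by positivity)).1 (hIu ▸ hI')
    exact ((um.pow_const 2).pow_const _).aestronglyMeasurable
  have hID : I = ENNReal.ofReal (∫ x, (u x ^ 2) ^ (1 + 2 / (d : ℝ))) := by
    rw [hIu, ofReal_integral_eq_lintegral_ofReal hD (Eventually.of_forall fun x => by positivity)]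
  have hD0 : 0 ≤ ∫ x, (u x ^ 2) ^ (1 + 2 / (d : ℝ)) := integral_nonneg fun x => by positivity
  have key : ∀ g : Fin d → (Fin d → ℝ) → ℂ, (∀ r, MemLp (g r) 2 volume ∧
      IsWeakDeriv (fun x => ((√(f x) : ℝ) : ℂ)) (g r) (Pi.single r (1 : ℝ))) →
      KN n f ≤ ENNReal.ofReal (Kcl d) * I +
        ENNReal.ofReal (C * ((n : ℝ) + 1) ^ (-2 / (d : ℝ))) * ∑ r, ∫⁻ x, ‖g r x‖ₑ ^ 2 := by
    intro g hg
    let B : Fin d → ℝ := fun r => ∫ x, ‖g r x‖ ^ 2
    have B0 : ∀ r, 0 ≤ B r := fun r => integral_nonneg fun x => by positivity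
    have hB : ∀ r (h : ℝ), 0 < h →
        ∫ x, (u (x + h • Pi.single r (1 : ℝ)) - u x) ^ 2 ≤ h ^ 2 * B r := by
      intro r h hh
      refine diff_le_of_weak u2 (hg r).1 (fun φ hφ hc => ?_) h hh
      rw [← (hg r).2 φ hφ hc]
      refine integral_congr_ae ?_
      filter_upwards [hu] with x hx
      rw [hx]
    let r0 : Fin d := ⟨0, hd⟩
    obtain ⟨F, F1, F2, F3, F4, F5, F6, F7⟩ := exists_cdf r0 um u2 u1 (sqrt_nonneg (B r0))
      fun h hh => by rw [sq_sqrt (B0 r0)]; exact hB r0 h hh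
    let c : Ctx d := ⟨r0, u, B, F, um, fun x => sqrt_nonneg _, u2, u1, B0, hB, F1, F2, F3, F4, F6, F7⟩
    have hBt : 0 < ∑ r, B r :=
      (sqrt_pos.1 F5).trans_le (Finset.single_le_sum (fun r _ => B0 r) (Finset.mem_univ r0))
    obtain ⟨Ψ, s1, s2, s3⟩ := H c n hBt hD
    have e : ∑ r, ∫⁻ x, ‖g r x‖ₑ ^ 2 = ENNReal.ofReal (∑ r, B r) := by
      rw [ENNReal.ofReal_sum_of_nonneg fun r _ => B0 r]
      exact Finset.sum_congr rfl fun r _ => lintegral_enorm_sq (hg r).1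
    unfold KN
    have s4 : ∀ᵐ x, density Ψ x = ((n : ℝ) + 1) * f x := by
      filter_upwards [s2, hu2] with x h1 h2
      rw [h1, ← h2]
    refine (iInf₂_le Ψ ⟨s1, s4⟩).trans ?_
    · refine (mul_le_mul_right s3 _).trans (le_of_eq ?_)
      rw [e, hID, ← ENNReal.ofReal_mul (by positivity), ← ENNReal.ofReal_mul (by positivity),
        ← ENNReal.ofReal_mul (by positivity), ← ENNReal.ofReal_add (by positivity) (by positivity)]
      congr 1
      have e1 : ((n : ℝ) + 1) ^ (-1 - 2 / (d : ℝ)) * ((n : ℝ) + 1) ^ (1 + 2 / (d : ℝ)) = 1 := by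
        rw [← rpow_add hN]
        have : -1 - 2 / (d : ℝ) + (1 + 2 / (d : ℝ)) = 0 := by ring
        rw [this, rpow_zero]
      have e2 : ((n : ℝ) + 1) ^ (-1 - 2 / (d : ℝ)) * ((n : ℝ) + 1) =
          ((n : ℝ) + 1) ^ (-2 / (d : ℝ)) := by
        rw [← rpow_add_one hN.ne']
        congr 1; ring
      simp only [c]
      linear_combination (Kcl d * ∫ x, (u x ^ 2) ^ (1 + 2 / (d : ℝ))) * e1 +
        (C * ∑ r, B r) * e2
  have hc0 : ENNReal.ofReal (C * ((n : ℝ) + 1) ^ (-2 / (d : ℝ))) ≠ 0 := by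
    rw [Ne, ENNReal.ofReal_eq_zero, not_le]; positivity
  unfold weiz dirichlet
  rw [ENNReal.mul_iInf_of_ne hc0 ENNReal.ofReal_ne_top, ENNReal.add_iInf]
  refine le_iInf fun g => ?_
  rw [ENNReal.mul_iInf_of_ne hc0 ENNReal.ofReal_ne_top]
  by_cases hg : ∀ r, MemLp (g r) 2 volume ∧
      IsWeakDeriv (fun x => ((√(f x) : ℝ) : ℂ)) (g r) (Pi.single r (1 : ℝ))
  · rw [iInf_pos hg]; exact key g hg
  · rw [iInf_neg hg, add_top]; exact le_top

end Pool.Agent.Results.MP_ae5e3b_mp.SharpUpperBound
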