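import Pool.Agent.Lib.MP_ae5e3b_mp.Three

open MeasureTheory Filter Topology Real
open scoped ENNReal
open Pool.Agent.Lib.MP_ae5e3b_mp

namespace Pool.Agent.Results.MP_ae5e3b_mp.ThreeSpace

/-- The March-Young inequality, with gradient constant exactly one, for two particles in
space: `N = 2`, `d = 3`, so `1 + 2 / d = 5 / 3` and `N ^ (-2 / d) = 2 ^ (-2 / 3)`. -/
theorem result (f : (Fin 3 → ℝ) → ℝ) (hf : Admissible f) :
    KN 1 f ≤ ENNReal.ofReal (Kcl 3) * (∫⁻ x, ENNReal.ofReal (f x ^ (5 / 3 : ℝ))) +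
      ENNReal.ofReal ((2 : ℝ) ^ (-2 / 3 : ℝ)) * weiz f := by
  obtain ⟨f0, fw, f1⟩ := hf
  have hK := Three.const_le
  have K0 : 0 < Kcl 3 := lt_of_lt_of_le (by positivity) hK
  have fi : Integrable f := Integrable.of_integral_ne_zero (by rw [f1]; exact one_ne_zero)
  have fm : AEMeasurable f := fi.aemeasurable
  let u : (Fin 3 → ℝ) → ℝ := fun x => √(fm.mk f x)
  have um : Measurable u := fm.measurable_mk.sqrt
  have hu : ∀ᵐ x, u x = √(f x) := by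
    filter_upwards [fm.ae_eq_mk] with x hx
    simp only [u, hx]
  have hu2 : ∀ᵐ x, u x ^ 2 = f x := by
    filter_upwards [hu] with x hx
    rw [hx, sq_sqrt (f0 x)]
  have u2 : MemLp u 2 volume :=
    (memLp_two_iff_integrable_sq um.aestronglyMeasurable).2 (fi.congr (EventuallyEq.symm hu2))
  have u1 : ∫ x, u x ^ 2 = 1 := by rw [integral_congr_ae hu2, f1]
  set I := ∫⁻ x, ENNReal.ofReal (f x ^ (5 / 3 : ℝ)) with hI
  rcases eq_or_ne I ⊤ with hI' | hI'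
  · rw [hI', ENNReal.mul_top (by rwa [Ne, ENNReal.ofReal_eq_zero, not_le]), top_add]
    exact le_top
  have hIu : I = ∫⁻ x, ENNReal.ofReal ((u x ^ 2) ^ (5 / 3 : ℝ)) := by
    refine lintegral_congr_ae ?_
    filter_upwards [hu2] with x hx
    rw [hx]
  obtain ⟨J, J0, hJ⟩ : ∃ J : ℝ, 0 ≤ J ∧ I = ENNReal.ofReal J :=
    ⟨I.toReal, ENNReal.toReal_nonneg, (ENNReal.ofReal_toReal hI').symm⟩
  obtain ⟨P, σ, hP, σ0, σi, σ2, hσ, hJσ⟩ :=
    Three.marginal um u2.integrable_sq u1 J0 (hIu.symm.trans hJ)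
  have S0 : 0 ≤ ∫ y, σ y ^ 2 := integral_nonneg fun y => sq_nonneg _
  have key : ∀ g : Fin 3 → (Fin 3 → ℝ) → ℂ, (∀ r, MemLp (g r) 2 volume ∧
      IsWeakDeriv (fun x => ((√(f x) : ℝ) : ℂ)) (g r) (Pi.single r (1 : ℝ))) →
      KN 1 f ≤ ENNReal.ofReal (Kcl 3) * I +
        ENNReal.ofReal ((2 : ℝ) ^ (-2 / 3 : ℝ)) * ∑ r, ∫⁻ x, ‖g r x‖ₑ ^ 2 := by
    intro g hg
    let B : Fin 3 → ℝ := fun r => ∫ x, ‖g r x‖ ^ 2
    have B0 : ∀ r, 0 ≤ B r := fun r => integral_nonneg fun x => by positivity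
    have hB : ∀ r (h : ℝ), 0 < h →
        ∫ x, (u (x + h • Pi.single r (1 : ℝ)) - u x) ^ 2 ≤ h ^ 2 * B r := by
      intro r h hh
      refine diff_le_of_weak u2 (hg r).1 (fun φ hφ hc => ?_) h hh
      rw [← (hg r).2 φ hφ hc]
      refine integral_congr_ae ?_
      filter_upwards [hu] with x hx
      rw [hx]
    have hBt : 0 ≤ ∑ r, B r := Finset.sum_nonneg fun r _ => B0 r
    obtain ⟨Ψ, s1, s2, s3⟩ :=
      Three.two_state um (fun x => sqrt_nonneg _) u2 u1 B B0 hB P hP σ0 σi σ2 hσ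
    have e : ∑ r, ∫⁻ x, ‖g r x‖ₑ ^ 2 = ENNReal.ofReal (∑ r, B r) := by
      rw [ENNReal.ofReal_sum_of_nonneg fun r _ => B0 r]
      exact Finset.sum_congr rfl fun r _ => lintegral_enorm_sq (hg r).1
    unfold KN
    have s4 : ∀ᵐ x, density Ψ x = (((1 : ℕ) : ℝ) + 1) * f x := by
      filter_upwards [hu2] with x h2
      rw [s2, h2]
      norm_num
    refine (iInf₂_le Ψ ⟨s1, s4⟩).trans ((mul_le_mul_right s3 _).trans ?_)
    rw [e, hJ, ← ENNReal.ofReal_mul (by positivity), ← ENNReal.ofReal_mul K0.le,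
      ← ENNReal.ofReal_mul (by positivity), ← ENNReal.ofReal_add (by positivity) (by positivity)]
    refine ENNReal.ofReal_le_ofReal ?_
    have e1 : (((1 : ℕ) : ℝ) + 1) ^ (-1 - 2 / ((3 : ℕ) : ℝ)) = (2 : ℝ) ^ (-5 / 3 : ℝ) := by
      norm_num
    have e2 : (2 : ℝ) ^ (-2 / 3 : ℝ) = (2 : ℝ) ^ (-5 / 3 : ℝ) * 2 := by
      rw [← rpow_add_one two_ne_zero]
      norm_num
    have c0 : 0 ≤ (2 : ℝ) ^ (-5 / 3 : ℝ) := by positivity
    rw [e1, e2]
    have h1 := mul_le_mul_of_nonneg_right hK J0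
    have h2 := mul_le_mul_of_nonneg_left hJσ c0
    linear_combination h1 + 4 * (10393 / 252 / 49) * h2
  have hc0 : ENNReal.ofReal ((2 : ℝ) ^ (-2 / 3 : ℝ)) ≠ 0 := by
    rw [Ne, ENNReal.ofReal_eq_zero, not_le]; positivity
  unfold weiz dirichlet
  rw [ENNReal.mul_iInf_of_ne hc0 ENNReal.ofReal_ne_top, ENNReal.add_iInf]
  refine le_iInf fun g => ?_
  rw [ENNReal.mul_iInf_of_ne hc0 ENNReal.ofReal_ne_top]
  by_cases hg : ∀ r, MemLp (g r) 2 volume ∧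
      IsWeakDeriv (fun x => ((√(f x) : ℝ) : ℂ)) (g r) (Pi.single r (1 : ℝ))
  · rw [iInf_pos hg]; exact key g hg
  · rw [iInf_neg hg, add_top]; exact le_top

end Pool.Agent.Results.MP_ae5e3b_mp.ThreeSpace
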