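import Pool.Agent.Lib.MP_ae5e3b_mp.Two

open MeasureTheory Filter Topology Real
open scoped ENNReal
open Pool.Agent.Lib.MP_ae5e3b_mp

namespace Pool.Agent.Results.MP_ae5e3b_mp.TwoInPlane

/-- The March-Young inequality, with gradient constant exactly one, for two particles in the
plane: `N = 2`, `d = 2`, so `1 + 2 / d = 2` and `N ^ (-2 / d) = 1 / 2`. -/
theorem result (f : (Fin 2 → ℝ) → ℝ) (hf : Admissible f) :
    KN 1 f ≤ ENNReal.ofReal (Kcl 2) * (∫⁻ x, ENNReal.ofReal (f x ^ 2)) +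
      ENNReal.ofReal (1 / 2) * weiz f := by
  obtain ⟨f0, fw, f1⟩ := hf
  have hK : Kcl 2 = 2 * π := by
    unfold Kcl
    rw [Measure.real, EuclideanSpace.volume_ball_fin_two]
    have := pi_pos
    simp [ENNReal.toReal_ofReal this.le, rpow_neg_one]
    field_simp
    norm_num
  have fi : Integrable f := Integrable.of_integral_ne_zero (by rw [f1]; exact one_ne_zero)
  have fm : AEMeasurable f := fi.aemeasurable
  let u : (Fin 2 → ℝ) → ℝ := fun x => √(fm.mk f x)
  have um : Measurable u := fm.measurable_mk.sqrt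
  have hu : ∀ᵐ x, u x = √(f x) := by
    filter_upwards [fm.ae_eq_mk] with x hx
    simp only [u, hx]
  have hu2 : ∀ᵐ x, u x ^ 2 = f x := by
    filter_upwards [hu] with x hx
    rw [hx, sq_sqrt (f0 x)]
  have u2 : MemLp u 2 volume :=
    (memLp_two_iff_integrable_sq um.aestronglyMeasurable).2 (fi.congr (EventuallyEq.symm hu2))
  have u1 : ∫ x, u x ^ 2 = 1 := by rw [integral_congr_ae hu2, f1]
  set I := ∫⁻ x, ENNReal.ofReal (f x ^ 2) with hI
  rcases eq_or_ne I ⊤ with hI' | hI'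
  · rw [hI', ENNReal.mul_top (by rw [Ne, ENNReal.ofReal_eq_zero, not_le, hK]; positivity), top_add]
    exact le_top
  have hIu : I = ∫⁻ x, ENNReal.ofReal ((u x ^ 2) ^ 2) := by
    refine lintegral_congr_ae ?_
    filter_upwards [hu2] with x hx
    rw [hx]
  have hD : Integrable fun x => (u x ^ 2) ^ 2 := by
    refine (lintegral_ofReal_ne_top_iff_integrable ?_
      (Eventually.of_forall fun x => by positivity)).1 (hIu ▸ hI')
    exact ((um.pow_const 2).pow_const _).aestronglyMeasurable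
  have hID : I = ENNReal.ofReal (∫ x, (u x ^ 2) ^ 2) := by
    rw [hIu, ofReal_integral_eq_lintegral_ofReal hD (Eventually.of_forall fun x => by positivity)]
  have hD0 : 0 ≤ ∫ x, (u x ^ 2) ^ 2 := integral_nonneg fun x => by positivity
  have key : ∀ g : Fin 2 → (Fin 2 → ℝ) → ℂ, (∀ r, MemLp (g r) 2 volume ∧
      IsWeakDeriv (fun x => ((√(f x) : ℝ) : ℂ)) (g r) (Pi.single r (1 : ℝ))) →
      KN 1 f ≤ ENNReal.ofReal (Kcl 2) * I +
        ENNReal.ofReal (1 / 2) * ∑ r, ∫⁻ x, ‖g r x‖ₑ ^ 2 := by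
    intro g hg
    let B : Fin 2 → ℝ := fun r => ∫ x, ‖g r x‖ ^ 2
    have B0 : ∀ r, 0 ≤ B r := fun r => integral_nonneg fun x => by positivity
    have hB : ∀ r (h : ℝ), 0 < h →
        ∫ x, (u (x + h • Pi.single r (1 : ℝ)) - u x) ^ 2 ≤ h ^ 2 * B r := by
      intro r h hh
      refine diff_le_of_weak u2 (hg r).1 (fun φ hφ hc => ?_) h hh
      rw [← (hg r).2 φ hφ hc]
      refine integral_congr_ae ?_
      filter_upwards [hu] with x hx
      rw [hx]
    have hBt : 0 ≤ ∑ r, B r := Finset.sum_nonneg fun r _ => B0 r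
    obtain ⟨Ψ, s1, s2, s3⟩ := Two.two_state um (fun x => sqrt_nonneg _) u2 u1 B B0 hB hD
    have e : ∑ r, ∫⁻ x, ‖g r x‖ₑ ^ 2 = ENNReal.ofReal (∑ r, B r) := by
      rw [ENNReal.ofReal_sum_of_nonneg fun r _ => B0 r]
      exact Finset.sum_congr rfl fun r _ => lintegral_enorm_sq (hg r).1
    unfold KN
    have s4 : ∀ᵐ x, density Ψ x = (((1 : ℕ) : ℝ) + 1) * f x := by
      filter_upwards [hu2] with x h2
      rw [s2, h2]
      norm_num
    refine (iInf₂_le Ψ ⟨s1, s4⟩).trans ((mul_le_mul_right s3 _).trans (le_of_eq ?_))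
    rw [e, hID, hK, ← ENNReal.ofReal_mul (by positivity), ← ENNReal.ofReal_mul (by positivity),
      ← ENNReal.ofReal_mul (by positivity), ← ENNReal.ofReal_add (by positivity) (by positivity)]
    congr 1
    have e1 : (((1 : ℕ) : ℝ) + 1) ^ (-1 - 2 / ((2 : ℕ) : ℝ)) = 1 / 4 := by
      have : -1 - 2 / ((2 : ℕ) : ℝ) = ((-2 : ℤ) : ℝ) := by norm_num
      rw [this, rpow_intCast]
      norm_num
    rw [e1]
    ring
  have hc0 : ENNReal.ofReal (1 / 2) ≠ 0 := by
    rw [Ne, ENNReal.ofReal_eq_zero, not_le]; positivity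
  unfold weiz dirichlet
  rw [ENNReal.mul_iInf_of_ne hc0 ENNReal.ofReal_ne_top, ENNReal.add_iInf]
  refine le_iInf fun g => ?_
  rw [ENNReal.mul_iInf_of_ne hc0 ENNReal.ofReal_ne_top]
  by_cases hg : ∀ r, MemLp (g r) 2 volume ∧
      IsWeakDeriv (fun x => ((√(f x) : ℝ) : ℂ)) (g r) (Pi.single r (1 : ℝ))
  · rw [iInf_pos hg]; exact key g hg
  · rw [iInf_neg hg, add_top]; exact le_top

end Pool.Agent.Results.MP_ae5e3b_mp.TwoInPlane
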